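import Pool.Agent.helper55.GL.Spec

set_option autoImplicit false

namespace Pool.Agent.GL

open SimpleGraph

theorem BAS_le {V : Type} (H : SimpleGraph V) (c : V → Bool) (n : ℕ) (S : Set V) (m : ℕ) :
    exs n H c S ≤ m ↔ ∀ B : Finset (Fin n × Fin n), ¬ Cp H c S B → B.card ≤ m := by
  classical
  unfold exs
  rw [Finset.sup_le_iff]
  constructor
  · intro h B hB
    exact h B (by rw [Finset.mem_filter]; exact ⟨Finset.mem_univ B, hB⟩)
  · intro h B hB
    rw [Finset.mem_filter] at hB
    exact h B hB.2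

theorem BAS : BAS_stmt := by
  intro V H c
  refine ⟨fun n S m => BAS_le H c n S m, ?_, ?_⟩
  · intro S T hST n
    rw [BAS_le]
    intro B hB
    have h1 : ¬ Cp H c T B := by
      rintro ⟨φ, h2, h3⟩
      exact hB ⟨φ, fun a ha b hb => h2 a (hST ha) b (hST hb),
        fun a ha b hb => h3 a (hST ha) b (hST hb)⟩
    exact (BAS_le H c n T _).1 le_rfl B h1
  · intro n S
    rw [BAS_le]
    intro B _
    refine (Finset.card_le_univ B).trans ?_
    rw [Fintype.card_prod, Fintype.card_fin, pow_two]

end Pool.Agent.GL
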